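import Pool.Agent.Q211.GT.A9
import Pool.Agent.Q209.GT.Spec
import Pool.Agent.Q41.GT.Stm7

/-!
# Heights on quasi-finite covers of the moduli spaces (statement `S_qht` of `Q41/GT/Stm7.lean`)

Noetherian induction on the ideal of a family of points.
-/

set_option autoImplicit false

namespace Pool.Agent.U723.GT

open Finset Polynomial FF
open Pool.Agent.W603.LV (Ge hgt canDeg hgt_root hgt_mvpoly)
open Pool.Agent.Q41.GT
open Pool.Agent.Q211.GT (maps_ext)

/-- an element algebraic over the field generated by a family satisfies an equation whose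
coefficients are polynomials in the members of the family -/
theorem alg_rel {k K σ : Type} [Field k] [Field K] [Algebra k K] (y : σ → K) {z : K}
    (hz : IsAlgebraic (IntermediateField.adjoin k (Set.range y)) z) :
    ∃ (D : ℕ) (g : ℕ → MvPolynomial σ k), MvPolynomial.aeval y (g D) ≠ 0 ∧
      ∑ j ∈ Finset.range (D + 1), MvPolynomial.aeval y (g j) * z ^ j = 0 := by
  obtain ⟨D, g, h1, h2⟩ := Pool.Agent.Q209.GT.alg_eqn hz
  have hs : ∀ s : Set.range y, ∃ i, y i = s.1 := fun s => s.2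
  choose e he using hs
  have hye : y ∘ e = (Subtype.val : Set.range y → K) := funext he
  refine ⟨D, fun j => MvPolynomial.rename e (g j), ?_, ?_⟩
  · rw [MvPolynomial.aeval_rename, hye]
    exact h1
  · rw [← h2]
    refine Finset.sum_congr rfl fun j _ => ?_
    rw [MvPolynomial.aeval_rename, hye]

/-- the condition on the points of `U` which are zeros of `𝔞` -/
def Bd (k τ : Type) [Field k] (d : ℕ) (I J : Set (MvPolynomial (τ ⊕ Sg d) k))
    (𝔞 : Ideal (MvPolynomial (τ ⊕ Sg d) k)) (C : ℕ) : Prop :=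
  ∀ (L : Type) [Field L] [Algebra k L] [IsFF k L] (x : τ ⊕ Sg d → L),
    (∀ F ∈ I, MvPolynomial.aeval x F = 0) → (∃ G ∈ J, MvPolynomial.aeval x G ≠ 0) →
    (∀ F ∈ 𝔞, MvPolynomial.aeval x F = 0) → ∀ i, hgt k (x i) ≤ C * max (canDeg k L) 0

theorem Bd.mono {k τ : Type} [Field k] {d : ℕ} {I J : Set (MvPolynomial (τ ⊕ Sg d) k)}
    {𝔞 : Ideal (MvPolynomial (τ ⊕ Sg d) k)} {C C' : ℕ} (h : Bd k τ d I J 𝔞 C) (hC : C ≤ C') :
    Bd k τ d I J 𝔞 C' := by
  intro L _ _ _ x hI hJ ha i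
  refine (h L x hI hJ ha i).trans ?_
  have h1 : (C : ℤ) ≤ (C' : ℤ) := by exact_mod_cast hC
  exact mul_le_mul_of_nonneg_right h1 (le_max_right _ _)

/-- the zeros of `𝔞` which are zeros of `F` -/
theorem zero_sup {k σ L : Type} [Field k] [Field L] [Algebra k L]
    {𝔞 : Ideal (MvPolynomial σ k)} {F : MvPolynomial σ k} {x : σ → L}
    (ha : ∀ G ∈ 𝔞, MvPolynomial.aeval x G = 0) (hF : MvPolynomial.aeval x F = 0) :
    ∀ G ∈ 𝔞 ⊔ Ideal.span {F}, MvPolynomial.aeval x G = 0 := by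
  intro G hG
  have hle : 𝔞 ⊔ Ideal.span {F} ≤
      RingHom.ker (MvPolynomial.aeval x : MvPolynomial σ k →ₐ[k] L).toRingHom := by
    rw [sup_le_iff, Ideal.span_singleton_le_iff_mem]
    exact ⟨fun H hH => RingHom.mem_ker.2 (ha H hH), RingHom.mem_ker.2 hF⟩
  exact RingHom.mem_ker.1 (hle hG)

theorem lt_sup {k σ : Type} [Field k] {𝔞 : Ideal (MvPolynomial σ k)} {F : MvPolynomial σ k}
    (hF : F ∉ 𝔞) : 𝔞 < 𝔞 ⊔ Ideal.span {F} := by
  refine lt_of_le_of_ne le_sup_left fun h => hF ?_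
  rw [h]
  exact Ideal.mem_sup_right (Ideal.mem_span_singleton_self F)

/-- the generic point of a prime ideal -/
theorem exists_gen {k σ : Type} [Field k] (P : Ideal (MvPolynomial σ k)) [P.IsPrime] :
    ∃ (K : Type) (_ : Field K) (_ : Algebra k K) (y : σ → K),
      ∀ F : MvPolynomial σ k, MvPolynomial.aeval y F = 0 ↔ F ∈ P := by
  let K := FractionRing (MvPolynomial σ k ⧸ P)
  let y : σ → K := fun i => algebraMap (MvPolynomial σ k ⧸ P) K
    (Ideal.Quotient.mk P (MvPolynomial.X i))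
  refine ⟨K, inferInstance, inferInstance, y, fun F => ?_⟩
  have hy : MvPolynomial.aeval y F = algebraMap (MvPolynomial σ k ⧸ P) K
      (Ideal.Quotient.mk P F) := by
    have h1 : (MvPolynomial.aeval y : MvPolynomial σ k →ₐ[k] K) =
        (IsScalarTower.toAlgHom k (MvPolynomial σ k ⧸ P) K).comp (Ideal.Quotient.mkₐ k P) := by
      apply MvPolynomial.algHom_ext
      intro i
      rw [MvPolynomial.aeval_X]
      rfl
    rw [h1]
    rfl
  rw [hy, ← Ideal.Quotient.eq_zero_iff_mem]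
  exact map_eq_zero_iff _ (IsFractionRing.injective (MvPolynomial σ k ⧸ P) K)

/-- **(A10)** -/
theorem qht (hv : S_vht) (hh : S_hom) (hf : S_fin) : S_qht := by
  intro d hd
  obtain ⟨B, hB⟩ := hv d hd
  refine ⟨max B 1, fun n hn k τ _ _ _ _ I J U hU => ?_⟩
  classical
  have hn1 : 1 ≤ n := le_trans (le_max_right _ _) hn
  have hd1 : 1 ≤ d := by omega
  obtain ⟨C₀, hC₀⟩ := hB n (le_trans (le_max_left _ _) hn)
  suffices key : ∀ 𝔞 : Ideal (MvPolynomial (τ ⊕ Sg d) k), ∃ C : ℕ, Bd k τ d I J 𝔞 C by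
    obtain ⟨C, hC⟩ := key ⊥
    refine ⟨C, fun L _ _ _ x hI hJ i => hC L x hI hJ (fun F hF => ?_) i⟩
    rw [Ideal.mem_bot] at hF
    rw [hF, map_zero]
  intro 𝔞
  induction 𝔞 using WellFoundedGT.induction with
  | _ 𝔞 ih =>
  -- the points with `F = 0`
  have hone : ∀ F ∉ 𝔞, ∃ C : ℕ, Bd k τ d I J (𝔞 ⊔ Ideal.span {F}) C := fun F hF =>
    ih _ (lt_sup hF)
  by_cases htop : 𝔞 = ⊤
  · refine ⟨0, fun L _ _ _ x _ _ ha i => ?_⟩
    have h1 := ha 1 (by rw [htop]; exact Submodule.mem_top)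
    rw [map_one] at h1
    exact absurd h1 one_ne_zero
  by_cases hpr : 𝔞.IsPrime
  swap
  · -- not prime
    obtain ⟨F, hF, G, hG, hFG⟩ : ∃ F, F ∉ 𝔞 ∧ ∃ G, G ∉ 𝔞 ∧ F * G ∈ 𝔞 := by
      by_contra hcon
      push Not at hcon
      refine hpr ⟨htop, fun {F G} hFG => ?_⟩
      by_contra h2
      rw [not_or] at h2
      exact hcon F h2.1 G h2.2 hFG
    obtain ⟨C1, hC1⟩ := hone F hF
    obtain ⟨C2, hC2⟩ := hone G hG
    refine ⟨max C1 C2, fun L _ _ _ x hI hJ ha i => ?_⟩
    have h1 := ha _ hFG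
    rw [map_mul] at h1
    rcases mul_eq_zero.1 h1 with h | h
    · exact (hC1.mono (le_max_left _ _)) L x hI hJ (zero_sup ha h) i
    · exact (hC2.mono (le_max_right _ _)) L x hI hJ (zero_sup ha h) i
  by_cases hIa : ∃ F ∈ I, F ∉ 𝔞
  · obtain ⟨F, hFI, hFa⟩ := hIa
    obtain ⟨C1, hC1⟩ := hone F hFa
    exact ⟨C1, fun L _ _ _ x hI hJ ha i => hC1 L x hI hJ (zero_sup ha (hI F hFI)) i⟩
  push Not at hIa
  by_cases hJa : ∃ G ∈ J, G ∉ 𝔞
  swap
  · push Not at hJa
    refine ⟨0, fun L _ _ _ x _ hJ ha i => ?_⟩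
    obtain ⟨G, hG, hG0⟩ := hJ
    exact absurd (ha G (hJa G hG)) hG0
  obtain ⟨K, _, _, y, hy⟩ := exists_gen 𝔞
  have halg := hf k τ d n I J U hU K y (fun F hF => (hy F).2 (hIa F hF)) (by
    obtain ⟨G, hG, hG1⟩ := hJa
    exact ⟨G, hG, fun h => hG1 ((hy G).1 h)⟩)
  choose D g hg1 hg2 using fun j : τ => alg_rel (fun i : Sg d => y (Sum.inr i)) (halg (Sum.inl j))
  have hren : ∀ {M : Type} [Field M] [Algebra k M] (w : τ ⊕ Sg d → M) (F : MvPolynomial (Sg d) k),
      MvPolynomial.aeval w (MvPolynomial.rename Sum.inr F) =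
        MvPolynomial.aeval (fun i => w (Sum.inr i)) F := by
    intro M _ _ w F
    rw [MvPolynomial.aeval_rename]
    rfl
  have hlead : ∀ j : τ, MvPolynomial.rename Sum.inr (g j (D j)) ∉ 𝔞 := by
    intro j h
    rw [← hy, hren] at h
    exact hg1 j h
  choose Cj hCj using fun j : τ => hone _ (hlead j)
  -- the relation
  have hrel : ∀ j : τ, ∑ m ∈ Finset.range (D j + 1),
      MvPolynomial.rename Sum.inr (g j m) * MvPolynomial.X (Sum.inl j) ^ m ∈ 𝔞 := by
    intro j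
    rw [← hy, map_sum, ← hg2 j]
    refine Finset.sum_congr rfl fun m _ => ?_
    rw [map_mul, hren, map_pow, MvPolynomial.aeval_X]
  obtain ⟨A, hA⟩ : ∃ A : ℕ, A = ∑ j : τ, ∑ m ∈ Finset.range (D j + 1),
    (g j m).totalDegree * (Fintype.card (Sg d) * C₀) := ⟨_, rfl⟩
  refine ⟨C₀ + A + ∑ j : τ, Cj j, fun L _ _ _ x hI hJ ha i => ?_⟩
  by_cases hz : ∃ j : τ, MvPolynomial.aeval x (MvPolynomial.rename Sum.inr (g j (D j))) = 0
  · obtain ⟨j, hj⟩ := hz
    refine ((hCj j).mono ?_) L x hI hJ (zero_sup ha hj) i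
    have h1 : Cj j ≤ ∑ j : τ, Cj j := Finset.single_le_sum (fun _ _ => Nat.zero_le _)
      (Finset.mem_univ j)
    omega
  push Not at hz
  have hV := maps_ext hh hd1 hn1 hU x hI hJ
  set χ : ℤ := max (canDeg k L) 0 with hχ
  have hχ0 : 0 ≤ χ := le_max_right _ _
  have : CharZero L := charZero_of_injective_algebraMap (algebraMap k L).injective
  have h0 : ∀ i : Sg d, hgt k (x (Sum.inr i)) ≤ C₀ * χ := fun i => hC₀ k L _ hV i
  rcases i with j | i
  · have h1 : ∑ m ∈ Finset.range (D j + 1),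
        MvPolynomial.aeval (fun i => x (Sum.inr i)) (g j m) * x (Sum.inl j) ^ m = 0 := by
      have h2 := ha _ (hrel j)
      rw [map_sum] at h2
      rw [← h2]
      refine Finset.sum_congr rfl fun m _ => ?_
      rw [map_mul, hren, map_pow, MvPolynomial.aeval_X]
    have h3 : MvPolynomial.aeval (fun i => x (Sum.inr i)) (g j (D j)) ≠ 0 := by
      have := hz j
      rwa [hren] at this
    have h4 : ∀ m, hgt k (MvPolynomial.aeval (fun i => x (Sum.inr i)) (g j m)) ≤
        ((g j m).totalDegree * (Fintype.card (Sg d) * C₀) : ℕ) * χ := by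
      intro m
      refine (hgt_mvpoly (k := k) (fun i => x (Sum.inr i)) (g j m)).trans ?_
      have h5 : ∑ i : Sg d, hgt k (x (Sum.inr i)) ≤ ((Fintype.card (Sg d) : ℕ) : ℤ) * (C₀ * χ) := by
        refine (Finset.sum_le_sum fun c _ => h0 c).trans (le_of_eq ?_)
        rw [Finset.sum_const, Finset.card_univ, nsmul_eq_mul]
      refine (mul_le_mul_of_nonneg_left h5 (Nat.cast_nonneg (α := ℤ) (g j m).totalDegree)).trans
        (le_of_eq ?_)
      push_cast
      ring
    refine (hgt_root (k := k) (fun m => MvPolynomial.aeval (fun i => x (Sum.inr i)) (g j m)) h3 _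
      h1).trans ?_
    rw [add_comm, ← Finset.sum_range_succ
      (fun m => hgt k (MvPolynomial.aeval (fun i => x (Sum.inr i)) (g j m)))]
    refine (Finset.sum_le_sum fun m _ => h4 m).trans ?_
    rw [← Finset.sum_mul]
    refine mul_le_mul_of_nonneg_right ?_ hχ0
    have h6 : ∑ m ∈ Finset.range (D j + 1), (g j m).totalDegree * (Fintype.card (Sg d) * C₀) ≤
        A := by
      rw [hA]
      exact Finset.single_le_sum (f := fun j : τ => ∑ m ∈ Finset.range (D j + 1),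
        (g j m).totalDegree * (Fintype.card (Sg d) * C₀)) (fun _ _ => Nat.zero_le _)
        (Finset.mem_univ j)
    have h7 : ∑ m ∈ Finset.range (D j + 1), (g j m).totalDegree * (Fintype.card (Sg d) * C₀) ≤
        C₀ + A + ∑ j : τ, Cj j := by omega
    exact_mod_cast h7
  · refine (h0 i).trans (mul_le_mul_of_nonneg_right ?_ hχ0)
    have h8 : C₀ ≤ C₀ + A + ∑ j : τ, Cj j := by omega
    exact_mod_cast h8

end Pool.Agent.U723.GT
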