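import Pool.Agent.Q41.GT.Ah
import Pool.Agent.Q103.EC.Nvc
import Pool.Agent.Q41.GT.Top
import Pool.Agent.U723.GT.Qht

/-!
# Quasi-finite covers of the moduli spaces: the generic map, homogeneous coordinates, heights
-/

set_option autoImplicit false

namespace Pool.Agent.U723.GT

open Finset Polynomial FF
open Pool.Agent.W602.GT (coords val IsForm GeneralType)
open Pool.Agent.W603.LV (hgt canDeg)
open Pool.Agent.W603.PV (pht pht_le)
open Pool.Agent.Q41.GT
open Pool.Agent.Q211.GT (maps_ext)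
open Pool.Agent.Q103.EC (ManyPrep maxVar_of_normal)
open Pool.Agent.Q285.GT (algebraic_of_gens algebraic_of_le)

theorem d_qht : S_qht := qht c_vht Pool.Agent.Q176.GT.R1.hom c_fin

/-- homogeneous coordinates of an affine point -/
def hom {σ L : Type} [Field L] {M : ℕ} (e : Fin M ≃ σ) (x : σ → L) : Fin (M + 1) → L :=
  Fin.cons 1 (fun i => x (e i))

theorem hom_ne {σ L : Type} [Field L] {M : ℕ} (e : Fin M ≃ σ) (x : σ → L) : hom e x ≠ 0 := by
  intro h
  have h1 := congrFun h 0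
  exact one_ne_zero h1

theorem coords_hom {k K σ : Type} [Field k] [Field K] [Algebra k K] {M : ℕ} (e : Fin M ≃ σ)
    (x : σ → K) (hgen : IntermediateField.adjoin k (Set.range x) = ⊤) :
    coords k (hom e x) = ⊤ := by
  rw [eq_top_iff, ← hgen, IntermediateField.adjoin_le_iff]
  rintro _ ⟨s, rfl⟩
  apply IntermediateField.subset_adjoin
  refine ⟨(e.symm s).succ, 0, one_ne_zero, ?_⟩
  unfold hom
  rw [Fin.cons_succ, Fin.cons_zero, div_one, e.apply_symm_apply]

theorem pht_hom {k L σ : Type} [Field k] [IsAlgClosed k] [CharZero k] [Field L] [Algebra k L]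
    [IsFF k L] [Fintype σ] {M : ℕ} (e : Fin M ≃ σ) (x : σ → L) :
    pht k (hom e x) ≤ ∑ s, hgt k (x s) := by
  classical
  refine (pht_le (k := k) (hom e x) (l := 0) one_ne_zero).trans (le_of_eq ?_)
  have h0 : hgt k ((hom e x) 0 / (hom e x) 0) = 0 := by
    have h1 : (hom e x) 0 / (hom e x) 0 = algebraMap k L 1 := by
      rw [map_one]
      exact div_self one_ne_zero
    rw [h1]
    exact Pool.Agent.W603.PV.hgt_algebraic (isAlgebraic_algebraMap (1 : k))
  rw [Fin.sum_univ_succ, h0, zero_add]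
  rw [← Equiv.sum_comp e (fun s => hgt k (x s))]
  refine Finset.sum_congr rfl fun i _ => ?_
  unfold hom
  rw [Fin.cons_succ, Fin.cons_zero, div_one]

/-- the generic map of a quasi-finite cover -/
theorem cover_many {k K τ : Type} [Field k] [IsAlgClosed k] [CharZero k] [Fintype τ] [Field K]
    [Algebra k K] {d n : ℕ} (hd : 2 ≤ d) (hn : 1 ≤ n) {I J : Set (MvPolynomial (τ ⊕ Sg d) k)}
    {U : Set (τ ⊕ Sg d → k)} (hU : QFin d n I J U) (x : τ ⊕ Sg d → K)
    (hgen : IntermediateField.adjoin k (Set.range x) = ⊤)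
    (hI : ∀ F ∈ I, MvPolynomial.aeval x F = 0) (hJ : ∃ G ∈ J, MvPolynomial.aeval x G ≠ 0) :
    ManyPrep k d n (num d fun i => x (Sum.inr i)) (den d fun i => x (Sum.inr i)) := by
  have hx : (fun i => x (Sum.inr i)) ∈ V d n K :=
    maps_ext Pool.Agent.Q176.GT.R1.hom (by omega) hn hU x hI hJ
  have halg := c_fin k τ d n I J U hU K x hI hJ
  have hle : IntermediateField.adjoin k (Set.range fun i : Sg d => x (Sum.inr i)) ≤
      IntermediateField.adjoin k (rats (num d fun i => x (Sum.inr i))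
        (den d fun i => x (Sum.inr i))) := by
    rw [IntermediateField.adjoin_le_iff]
    rintro _ ⟨i, rfl⟩
    apply IntermediateField.subset_adjoin
    rcases i with i | i
    · refine ⟨num d _, den d _, Or.inl rfl, Or.inr rfl, i, d, ?_⟩
      rw [den_coeff_top _ (by omega), num_coeff _ i i.2, div_one]
    · refine ⟨den d _, den d _, Or.inr rfl, Or.inr rfl, i + 1, d, ?_⟩
      rw [den_coeff_top _ (by omega), den_coeff _ i i.2, div_one]
  have hmax : max (num d fun i => x (Sum.inr i)).natDegree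
      (den d fun i => x (Sum.inr i)).natDegree = d := max_natDegree _ (by omega)
  refine ⟨hx.1, hmax, ?_, many_points _ hn hx⟩
  exact maxVar_of_normal hd hx.1 hmax (fun z hz => prep_points _ (by omega) hn hx z hz)
    (algebraic_of_gens x hgen _ fun j => algebraic_of_le hle (halg j))

/-- degrees of the closures of the images -/
theorem degrees (d : ℕ) (hd : 2 ≤ d) : ∃ B : ℕ, ∀ n : ℕ, B ≤ n → ∀ (k τ : Type) [Field k]
    [IsAlgClosed k] [CharZero k] [Fintype τ] (I J : Set (MvPolynomial (τ ⊕ Sg d) k))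
    (U : Set (τ ⊕ Sg d → k)), QFin d n I J U → ∃ C : ℕ, ∀ (L : Type) [Field L] [Algebra k L]
    [IsFF k L] (x : τ ⊕ Sg d → L), (∀ F ∈ I, MvPolynomial.aeval x F = 0) →
    (∃ G ∈ J, MvPolynomial.aeval x G ≠ 0) → ∀ (M : ℕ) (e : Fin M ≃ τ ⊕ Sg d),
      pht k (hom e x) ≤ C * max (canDeg k L) 0 := by
  obtain ⟨B, hB⟩ := d_qht d hd
  refine ⟨B, fun n hn k τ _ _ _ _ I J U hU => ?_⟩
  obtain ⟨C, hC⟩ := hB n hn k τ I J U hU
  refine ⟨Fintype.card (τ ⊕ Sg d) * C, fun L _ _ _ x hI hJ M e => ?_⟩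
  refine (pht_hom e x).trans ((Finset.sum_le_sum fun s _ => hC L x hI hJ s).trans (le_of_eq ?_))
  rw [Finset.sum_const, Finset.card_univ, nsmul_eq_mul]
  push_cast
  ring

/-- see `Pool/Agent/Results/MP_70ba79_ag/MarkedPeriodicDegrees.lean` -/
theorem all_degrees (d : ℕ) (hd : 2 ≤ d) : ∃ B : ℕ, ∀ n : ℕ, B ≤ n →
    (V d n ℂ).Nonempty ∧ ∀ (k : Type) [Field k] [IsAlgClosed k] [CharZero k],
    (∀ (P : Ideal (MvPolynomial (Sg d) k)) [P.IsPrime],
      P ∈ (MvPolynomial.vanishingIdeal k (V d n k)).minimalPrimes →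
      GeneralType k (FractionRing (MvPolynomial (Sg d) k ⧸ P)) (2 * d - 2)) ∧
    ∀ (τ : Type) [Fintype τ] (I J : Set (MvPolynomial (τ ⊕ Sg d) k)) (U : Set (τ ⊕ Sg d → k)),
      QFin d n I J U →
      (∀ (P : Ideal (MvPolynomial (τ ⊕ Sg d) k)) [P.IsPrime], ∀ W ⊆ U, W.Infinite →
        P = MvPolynomial.vanishingIdeal k W →
        ∃ w, 1 ≤ w ∧ GeneralType k (FractionRing (MvPolynomial (τ ⊕ Sg d) k ⧸ P)) w) ∧
      ∃ C : ℕ, ∀ (L : Type) [Field L] [Algebra k L] [IsFF k L] (x : τ ⊕ Sg d → L),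
        (∀ F ∈ I, MvPolynomial.aeval x F = 0) → (∃ G ∈ J, MvPolynomial.aeval x G ≠ 0) →
        (∀ s, hgt k (x s) ≤ C * max (canDeg k L) 0) ∧
        ∀ (M : ℕ) (e : Fin M ≃ τ ⊕ Sg d), pht k (hom e x) ≤ C * max (canDeg k L) 0 := by
  obtain ⟨B1, hB3, hB1⟩ := subvar0 a_prep b_gnp Pool.Agent.Q176.GT.R3.fun_ d hd
  obtain ⟨B2, hB2⟩ := c_qsub d hd
  obtain ⟨B4, hB4⟩ := d_qht d hd
  obtain ⟨B5, hB5⟩ := degrees d hd
  refine ⟨max B1 (max B2 (max B4 (max B5 3))), fun n hn => ?_⟩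
  simp only [max_le_iff] at hn
  obtain ⟨h1, h2, h4, h5, h6⟩ := hn
  refine ⟨b_nem d n hd h6, fun k _ _ _ => ?_⟩
  refine ⟨?_, fun τ _ I J U hU => ⟨fun P _ W hW hinf hP => hB2 n h2 k τ I J U hU P W hW hinf hP,
    ?_⟩⟩
  · intro P _ hP
    obtain ⟨g1, g2⟩ := b_cmp k d n hd (by omega) P hP
    exact hB1 n h1 k P _ Set.inter_subset_left g1 (2 * d - 2) (by omega) g2
  · obtain ⟨C1, hC1⟩ := hB4 n h4 k τ I J U hU
    obtain ⟨C2, hC2⟩ := hB5 n h5 k τ I J U hU
    refine ⟨max C1 C2, fun L _ _ _ x hI hJ => ⟨fun s => ?_, fun M e => ?_⟩⟩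
    · refine (hC1 L x hI hJ s).trans (mul_le_mul_of_nonneg_right ?_ (le_max_right _ _))
      exact_mod_cast le_max_left _ _
    · refine (hC2 L x hI hJ M e).trans (mul_le_mul_of_nonneg_right ?_ (le_max_right _ _))
      exact_mod_cast le_max_right _ _

end Pool.Agent.U723.GT
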