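import Pool.Agent.Q103.RP.Exi

/-!
# Examples over all fields of characteristic zero
-/

set_option autoImplicit false

namespace Pool.Agent.U723.GT

open Polynomial
open Pool.Agent.Q103.EC (ManyPrep)

theorem exists_fld (d : ℕ) (hd : 2 ≤ d) (F : Type) [Field F] [CharZero F] (n : ℕ) (hn : 3 ≤ n) :
    ∃ (K : Type) (_ : Field K) (_ : Algebra F K) (p q : K[X]), ManyPrep F d n p q ∧
      Algebra.trdeg F K = (2 * d - 2 : ℕ) := by
  obtain ⟨K, i1, i2, p, q, h1, h2, _⟩ := Pool.Agent.Q103.RP.exists_over F d n hd hn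
  exact ⟨K, i1, i2, p, q, h1, h2⟩

end Pool.Agent.U723.GT
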