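import Pool.Agent.Q41.GT.Defs
import Pool.Agent.Q41.SU.Defs

/-!
# Stable sets and their cross ratios in field extensions
-/

set_option autoImplicit false

namespace Pool.Agent.U723.GT

open Polynomial
open Pool.Agent.Q41.SU (Stab)
open Pool.Agent.Q41.GT (crs)

variable {K K' : Type} [Field K] [Field K'] (φ : K →+* K')

/-- the image of a finite set -/
def im (P : Finset K) : Finset K' := P.map ⟨φ, φ.injective⟩

theorem mem_im {P : Finset K} {z : K'} : z ∈ im φ P ↔ ∃ a ∈ P, φ a = z := by
  unfold im
  rw [Finset.mem_map]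
  rfl

theorem card_im (P : Finset K) : (im φ P).card = P.card := Finset.card_map _

theorem stab_im {p q : K[X]} {P : Finset K} (h : Stab p q P) :
    Stab (p.map φ) (q.map φ) (im φ P) := by
  intro z hz
  obtain ⟨a, ha, rfl⟩ := (mem_im φ).1 hz
  obtain ⟨h1, h2⟩ := h a ha
  rw [eval_map, eval_map, eval₂_at_apply, eval₂_at_apply]
  refine ⟨fun h3 => h1 ((map_eq_zero φ).1 h3), (mem_im φ).2 ⟨_, h2, ?_⟩⟩
  rw [map_div₀]

theorem crs_im {P : Finset K} {c : K} (hc : c ∈ crs P) : φ c ∈ crs (im φ P) := by
  obtain ⟨x0, h0, x1, h1, x2, h2, x, hx, n1, n2, n3, n4, n5, rfl⟩ := hc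
  refine ⟨φ x0, (mem_im φ).2 ⟨_, h0, rfl⟩, φ x1, (mem_im φ).2 ⟨_, h1, rfl⟩, φ x2,
    (mem_im φ).2 ⟨_, h2, rfl⟩, φ x, (mem_im φ).2 ⟨_, hx, rfl⟩, fun h => n1 (φ.injective h),
    fun h => n2 (φ.injective h), fun h => n3 (φ.injective h), fun h => n4 (φ.injective h),
    fun h => n5 (φ.injective h), ?_⟩
  simp only [map_div₀, map_mul, map_sub]

/-- the field of the cross ratios in an algebraic extension -/
theorem alg_im {k K K' : Type} [Field k] [Field K] [Field K'] [Algebra k K] [Algebra k K']
    [Algebra K K'] [IsScalarTower k K K'] [Algebra.IsAlgebraic K K'] {P : Finset K}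
    (h : Algebra.IsAlgebraic (IntermediateField.adjoin k (crs P)) K) :
    Algebra.IsAlgebraic (IntermediateField.adjoin k (crs (im (algebraMap K K') P))) K' := by
  set F := IntermediateField.adjoin k (crs P) with hF
  set F' := IntermediateField.adjoin k (crs (im (algebraMap K K') P)) with hF'
  have hle : ∀ a ∈ F, algebraMap K K' a ∈ F' := by
    have h1 : F ≤ F'.comap (IsScalarTower.toAlgHom k K K') := by
      rw [hF, IntermediateField.adjoin_le_iff]
      intro c hc
      exact IntermediateField.subset_adjoin _ _ (crs_im (algebraMap K K') hc)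
    exact fun a ha => h1 ha
  let f : F →+* F' :=
    { toFun := fun a => ⟨algebraMap K K' a, hle a a.2⟩
      map_one' := by ext; simp
      map_mul' := fun a b => by ext; simp
      map_zero' := by ext; simp
      map_add' := fun a b => by ext; simp }
  -- the elements of `K`
  have hK : ∀ a : K, IsAlgebraic F' (algebraMap K K' a) := by
    intro a
    refine IsAlgebraic.ringHom_of_comp_eq f (algebraMap K K') (h.isAlgebraic a) f.injective ?_
    ext b
    rfl
  let A := algebraicClosure F' K'
  have hA : ∀ a : K, algebraMap K K' a ∈ A := fun a => mem_algebraicClosure_iff.2 (hK a)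
  let g : K →+* A :=
    { toFun := fun a => ⟨algebraMap K K' a, hA a⟩
      map_one' := by ext; simp
      map_mul' := fun a b => by ext; simp
      map_zero' := by ext; simp
      map_add' := fun a b => by ext; simp }
  refine ⟨fun z => ?_⟩
  have hz : IsAlgebraic K z := Algebra.IsAlgebraic.isAlgebraic z
  have hz2 : IsAlgebraic A (RingHom.id K' z) := by
    refine IsAlgebraic.ringHom_of_comp_eq g (RingHom.id K') hz g.injective ?_
    ext b
    rfl
  have : Algebra.IsAlgebraic F' A := algebraicClosure.isAlgebraic F' K'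
  exact IsAlgebraic.restrictScalars F' hz2

end Pool.Agent.U723.GT
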