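import Pool.Agent.Q209.GT.Sub
import Pool.Agent.Q103.EC.Mxv
import Pool.Agent.U723.GT.Stb

/-!
# One exceptional set for subvarieties, pointed curves and degrees of curves
-/

set_option autoImplicit false

namespace Pool.Agent.U723.GT

open Finset Polynomial FF
open Pool.Agent.W602.GT (coords val IsForm GeneralType VarPts)
open Pool.Agent.W602.RG (PseudoGeomHyp PointedMaps)
open Pool.Agent.Y216 (OnVar CurveBound pointed_of_bound)
open Pool.Agent.W603.LV (canDeg)
open Pool.Agent.W603.PV (pht)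
open Pool.Agent.Q41.SU (Stab)
open Pool.Agent.Q41.GT (crs S_gt S_sub S_dcb)
open Pool.Agent.Q103.EC (ManyPrep exists_stab)

/-- The projective variety `X` over `k` with the generic point `x` is hyperbolic modulo the proper
closed subset `Z` given by the form `R`. -/
structure AlgHypOff (k : Type) [Field k] {M : ℕ} {K : Type} [Field K] [Algebra k K]
    (x : Fin (M + 1) → K) (R : MvPolynomial (Fin (M + 1)) k) : Prop where
  form : IsForm R
  ne : val x R ≠ 0
  /-- all closed subvarieties of positive dimension which are not contained in `Z` are of general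
  type -/
  sub : ∀ (E : Type) [Field E] [Algebra k E] (w : ℕ) (z : Fin (M + 1) → E), OnVar k x z →
    coords k z = ⊤ → val z R ≠ 0 → 1 ≤ w → Algebra.trdeg k E = w → GeneralType k E w
  /-- for every pointed curve there are only finitely many morphisms to `X` with a given value outside
  of `Z` at the marked point -/
  pointed : ∀ (E : Type) [Field E] [Algebra k E] [IsFF k E] (c : Place k E),
    ∀ a ∈ VarPts k x, val a R ≠ 0 → (PointedMaps x c a).Finite
  /-- the degree of the morphisms from a curve of genus `g` to `X`, with an image not contained in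
  `Z`, is at most `A * max (2 * g - 2) 0` -/
  degree : ∃ A : ℕ, ∀ (E : Type) [Field E] [Algebra k E] [IsFF k E] (f : Fin (M + 1) → E),
    OnVar k x f → val f R ≠ 0 → pht k f ≤ A * max (canDeg k E) 0

theorem form_mul {k : Type} [Field k] {M : ℕ} {R S : MvPolynomial (Fin (M + 1)) k}
    (hR : IsForm R) (hS : IsForm S) : IsForm (R * S) := by
  obtain ⟨a, ha⟩ := hR
  obtain ⟨b, hb⟩ := hS
  exact ⟨a + b, ha.mul hb⟩

theorem val_mul {k : Type} [Field k] {M : ℕ} {E : Type} [Field E] [Algebra k E]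
    (z : Fin (M + 1) → E) (R S : MvPolynomial (Fin (M + 1)) k) :
    val z (R * S) = val z R * val z S := by
  unfold Pool.Agent.W602.GT.val
  exact map_mul _ _ _

theorem hypOff {k : Type} [Field k] [IsAlgClosed k] [CharZero k] {M : ℕ} {K : Type} [Field K]
    [Algebra k K] {x : Fin (M + 1) → K} {R₁ : MvPolynomial (Fin (M + 1)) k} (f1 : IsForm R₁)
    (n1 : val x R₁ ≠ 0)
    (h1 : ∀ (E : Type) [Field E] [Algebra k E] (z : Fin (M + 1) → E) (w : ℕ), OnVar k x z →
      coords k z = ⊤ → val z R₁ ≠ 0 → 1 ≤ w → Algebra.trdeg k E = w → GeneralType k E w)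
    (h2 : CurveBound k x) : ∃ R, AlgHypOff k x R := by
  obtain ⟨R2, f2, n2, g2⟩ := pointed_of_bound h2
  obtain ⟨R3, f3, n3, A, hA⟩ := h2
  have key : ∀ {E : Type} [Field E] [Algebra k E] (z : Fin (M + 1) → E),
      val z (R₁ * R2 * R3) ≠ 0 ↔ val z R₁ ≠ 0 ∧ val z R2 ≠ 0 ∧ val z R3 ≠ 0 := by
    intro E _ _ z
    simp only [val_mul, Ne, mul_eq_zero, not_or]
    tauto
  refine ⟨R₁ * R2 * R3, form_mul (form_mul f1 f2) f3, (key x).2 ⟨n1, n2, n3⟩, ?_, ?_, A, ?_⟩
  · intro E _ _ w z hz hgen hR hw htr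
    exact h1 E z w hz hgen ((key z).1 hR).1 hw htr
  · intro E _ _ _ c a ha hR
    exact g2 E c a ha ((key a).1 hR).2.1
  · intro E _ _ _ f hf hR
    exact hA E f hf ((key f).1 hR).2.2

/-- varieties with a large stable set -/
theorem pseudo_stab (hgt : S_gt) (hsub : S_sub) (hdcb : S_dcb) (d : ℕ) (hd : 2 ≤ d) : ∃ B : ℕ,
    ∀ (k K : Type) [Field k] [IsAlgClosed k] [CharZero k] [Field K] [Algebra k K] (p q : K[X]),
    p.natDegree ≤ d → q.natDegree = d → IsCoprime p q → ∀ P : Finset K, Stab p q P →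
    B ≤ P.card → Algebra.IsAlgebraic (IntermediateField.adjoin k (crs P)) K →
    (∀ w : ℕ, 1 ≤ w → Algebra.trdeg k K = w → GeneralType k K w) ∧
    ∀ (M : ℕ) (x : Fin (M + 1) → K), x ≠ 0 → coords k x = ⊤ →
      PseudoGeomHyp k x ∧ ∃ R, AlgHypOff k x R := by
  obtain ⟨B1, hB1⟩ := hgt d hd
  obtain ⟨B2, hB2⟩ := hsub d hd
  obtain ⟨B3, hB3⟩ := hdcb d hd
  refine ⟨max B1 (max B2 B3), ?_⟩
  intro k K _ _ _ _ _ p' q' hp' hq' hpq' P' hst hc' halg
  have hc1 : B1 ≤ P'.card := (le_max_left _ _).trans hc'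
  have hc2 : B2 ≤ P'.card := ((le_max_left _ _).trans (le_max_right _ _)).trans hc'
  have hc3 : B3 ≤ P'.card := ((le_max_right _ _).trans (le_max_right _ _)).trans hc'
  refine ⟨fun w hw htr => hB1 k K w hw htr p' q' hp' hq' hpq' P' hst hc1 halg, ?_⟩
  intro M x hx hgen
  obtain ⟨G, hG, hxG, h1⟩ := hB2 k K p' q' hp' hq' hpq' P' hst hc2 halg M x hx hgen
  have hcb := hB3 k K p' q' hp' hq' hpq' P' hst hc3 halg M x hx hgen
  exact ⟨pointed_of_bound hcb,
    hypOff hG hxG (fun E _ _ z w hz hgz hR hw htr => h1 E z w hz hgz hR hw htr) hcb⟩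

/-- **Varieties with many preperiodic points** and their generically finite covers, over any
algebraically closed field of characteristic zero. -/
theorem pseudo (hgt : S_gt) (hsub : S_sub) (hdcb : S_dcb) (d : ℕ) (hd : 2 ≤ d) : ∃ B : ℕ,
    ∀ (k K : Type) [Field k] [IsAlgClosed k] [CharZero k] [Field K] [Algebra k K] (p q : K[X]),
    ManyPrep k d B p q →
    ∀ (K' : Type) [Field K'] [Algebra k K'] [Algebra K K'] [IsScalarTower k K K']
      [Algebra.IsAlgebraic K K'] (M : ℕ) (x : Fin (M + 1) → K'), x ≠ 0 → coords k x = ⊤ →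
      (∀ w : ℕ, 1 ≤ w → Algebra.trdeg k K' = w → GeneralType k K' w) ∧ PseudoGeomHyp k x ∧
      ∃ R, AlgHypOff k x R := by
  obtain ⟨B1, hB1⟩ := pseudo_stab hgt hsub hdcb d hd
  refine ⟨max B1 (3 * d + 7), fun k K _ _ _ _ _ p q h K' _ _ _ _ _ M x hx hgen => ?_⟩
  have hK : CharZero K := charZero_of_injective_algebraMap (algebraMap k K).injective
  obtain ⟨p', q', P', hp', hq', hpq', hst, hc, halg⟩ := exists_stab hd (le_max_right _ _) h
  have hc1 : B1 ≤ P'.card := (le_max_left _ _).trans hc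
  have h1 := hB1 k K' (p'.map (algebraMap K K')) (q'.map (algebraMap K K'))
    (by rw [natDegree_map]; exact hp') (by rw [natDegree_map]; exact hq')
    (hpq'.map (mapRingHom (algebraMap K K'))) (im (algebraMap K K') P')
    (stab_im (algebraMap K K') hst) (by rw [card_im]; exact hc1) (alg_im halg)
  exact ⟨h1.1, (h1.2 M x hx hgen).1, (h1.2 M x hx hgen).2⟩

end Pool.Agent.U723.GT
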