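import Pool.Agent.U723.GT.Psd
import Pool.Agent.U723.GT.ExFld
import Pool.Agent.Q41.GT.All
import Pool.Agent.Q41.GT.Ah

/-!
# Varieties with many preperiodic points: final form
-/

set_option autoImplicit false

namespace Pool.Agent.U723.GT

open Finset Polynomial FF
open Pool.Agent.W602.GT (coords GeneralType)
open Pool.Agent.W602.RG (PseudoGeomHyp)
open Pool.Agent.Q41.GT
open Pool.Agent.Q103.EC (ManyPrep)

theorem pseudo_all (d : ℕ) (hd : 2 ≤ d) : ∃ B : ℕ,
    ∀ (k K : Type) [Field k] [IsAlgClosed k] [CharZero k] [Field K] [Algebra k K] (p q : K[X]),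
    ManyPrep k d B p q →
    ∀ (K' : Type) [Field K'] [Algebra k K'] [Algebra K K'] [IsScalarTower k K K']
      [Algebra.IsAlgebraic K K'] (M : ℕ) (x : Fin (M + 1) → K'), x ≠ 0 → coords k x = ⊤ →
      (∀ w : ℕ, 1 ≤ w → Algebra.trdeg k K' = w → GeneralType k K' w) ∧ PseudoGeomHyp k x ∧
      ∃ R, AlgHypOff k x R :=
  pseudo a_gt c_sub c_dcb d hd

end Pool.Agent.U723.GT
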