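import Pool.Agent.Q209.GT.Sub
import Pool.Agent.Q103.EC.Mxv
import Pool.Agent.U723.GT.Stb
import Pool.Agent.W603.PV.Ext

/-!
# Vojta's inequality over function fields for varieties with many preperiodic points

`F` is the function field of a curve over `k`, `K` the function field of a variety over `F`; the moduli
map is generically finite over `F`.
-/

set_option autoImplicit false

namespace Pool.Agent.U723.GT

open Finset Polynomial FF
open Pool.Agent.W602.GT (coords val IsForm GeneralType)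
open Pool.Agent.Y216 (OnVar)
open Pool.Agent.W603.LV (hgt canDeg hgt_root hgt_mvpoly hgt_nonneg)
open Pool.Agent.W603.PV (pht pht_le hgt_algebraMap)
open Pool.Agent.Q41.SU (Stab)
open Pool.Agent.Q41.GT (crs S_cvh S_gt)
open Pool.Agent.Q103.EC (ManyPrep exists_stab)

/-- heights of the values of polynomials with coefficients in `F` -/
theorem hgt_poly {k F : Type} [Field k] [IsAlgClosed k] [CharZero k] [Field F] [Algebra k F]
    [IsFF k F] {ρ : Type} [Fintype ρ] (g : MvPolynomial ρ F) :
    ∃ A A' : ℕ, ∀ (L : Type) [Field L] [Algebra k L] [Algebra F L] [IsScalarTower k F L]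
      [IsFF k L] (c : ρ → L), hgt k (MvPolynomial.aeval c g) ≤
        A * ∑ a, hgt k (c a) + A' * Module.finrank F L := by
  classical
  let G : MvPolynomial (ρ ⊕ g.support) k := ∑ m : g.support,
    MvPolynomial.X (Sum.inr m) * ∏ a, MvPolynomial.X (Sum.inl a) ^ (m : ρ →₀ ℕ) a
  refine ⟨G.totalDegree, G.totalDegree * ∑ m : g.support, (hgt k (g.coeff m)).toNat, ?_⟩
  intro L _ _ _ _ _ c
  have hk : ∀ (a : k), algebraMap k L a = algebraMap k L a := fun _ => rfl
  have h1 : MvPolynomial.aeval (Sum.elim c fun m : g.support => algebraMap F L (g.coeff m)) G =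
      MvPolynomial.aeval c g := by
    have h2 : MvPolynomial.aeval c g =
        ∑ m ∈ g.support, algebraMap F L (g.coeff m) * ∏ a, c a ^ m a := by
      rw [MvPolynomial.aeval_def, MvPolynomial.eval₂_eq']
    rw [h2, ← Finset.sum_coe_sort g.support
      (fun m => algebraMap F L (g.coeff m) * ∏ a, c a ^ m a)]
    simp only [G, map_sum, map_mul, map_prod, map_pow, MvPolynomial.aeval_X, Sum.elim_inr,
      Sum.elim_inl]
  rw [← h1]
  refine (hgt_mvpoly (k := k) _ G).trans (le_of_eq ?_)
  rw [Fintype.sum_sum_type]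
  simp only [Sum.elim_inl, Sum.elim_inr]
  have h2 : ∑ m : g.support, hgt k (algebraMap F L (g.coeff m)) =
      (Module.finrank F L : ℤ) * ∑ m : g.support, hgt k (g.coeff m) := by
    rw [Finset.mul_sum]
    exact Finset.sum_congr rfl fun m _ => hgt_algebraMap _
  have h3 : ((∑ m : g.support, (hgt k (g.coeff m)).toNat : ℕ) : ℤ) =
      ∑ m : g.support, hgt k (g.coeff m) := by
    push_cast
    exact Finset.sum_congr rfl fun m _ => by
      have := hgt_nonneg (k := k) (g.coeff (m : ρ →₀ ℕ))
      omega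
  rw [h2]
  push_cast at h3 ⊢
  rw [h3]
  ring

/-- **Vojta's inequality**, for a large stable set. -/
theorem voj_stab (hcvh : S_cvh) (d : ℕ) (hd : 2 ≤ d) : ∃ B : ℕ, ∀ (k F K : Type) [Field k]
    [IsAlgClosed k] [CharZero k] [Field F] [Algebra k F] [IsFF k F] [Field K] [Algebra F K]
    (p q : K[X]), p.natDegree ≤ d → q.natDegree = d → IsCoprime p q → ∀ P : Finset K,
    Stab p q P → B ≤ P.card → Algebra.IsAlgebraic (IntermediateField.adjoin F (crs P)) K →
    ∀ (M : ℕ) (y : Fin (M + 1) → K), y ≠ 0 → coords F y = ⊤ →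
    ∃ G : MvPolynomial (Fin (M + 1)) F, IsForm G ∧ val y G ≠ 0 ∧ ∃ A A' : ℕ,
      ∀ (L : Type) [Field L] [Algebra k L] [Algebra F L] [IsScalarTower k F L] [IsFF k L]
        (f : Fin (M + 1) → L), OnVar F y f → val f G ≠ 0 →
        pht k f ≤ A * max (canDeg k L) 0 + A' * Module.finrank F L := by
  classical
  obtain ⟨B, hB⟩ := hcvh d hd
  refine ⟨B, ?_⟩
  intro k F K _ _ _ _ _ _ _ _ p q hp hq hc P hS hcard halg M y hy hgen
  obtain ⟨C, hC⟩ := hB P.card hcard
  obtain ⟨i1, G, D, g, hG, hyG, hmain⟩ := Pool.Agent.Q209.GT.main (by omega) hp hq hc hS halg hy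
    hgen
  have : Fintype (crs P) := (Pool.Agent.Q209.GT.crs_finite P).fintype
  choose a a' haa using fun i j => hgt_poly (k := k) (g i j)
  refine ⟨G, hG, hyG, ∑ i, ∑ j ∈ Finset.range (D i + 1), a i j * (Fintype.card (crs P) * C),
    ∑ i, ∑ j ∈ Finset.range (D i + 1), a' i j, ?_⟩
  intro L _ _ _ _ _ f hf hfG
  have hchar : CharZero L := charZero_of_injective_algebraMap (algebraMap k L).injective
  obtain ⟨hf1, p', q', P', c', hp', hq', hc', hS', hcard', hcr, hrel⟩ := hmain L f hf hfG
  set χ : ℤ := max (canDeg k L) 0 with hχ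
  set r : ℤ := (Module.finrank F L : ℤ) with hr
  have hχ0 : 0 ≤ χ := le_max_right _ _
  have h1 : ∀ c, hgt k (c' c) ≤ C * χ := fun c => hC k L p' q' hp' hq' hc' P' hS' hcard' _ (hcr c)
  have h3 : ∑ c, hgt k (c' c) ≤ ((Fintype.card (crs P) : ℕ) : ℤ) * (C * χ) := by
    refine (Finset.sum_le_sum fun c _ => h1 c).trans (le_of_eq ?_)
    rw [Finset.sum_const, Finset.card_univ, nsmul_eq_mul]
  have h2 : ∀ i j, hgt k (MvPolynomial.aeval c' (g i j)) ≤
      (a i j * (Fintype.card (crs P) * C) : ℕ) * χ + (a' i j : ℕ) * r := by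
    intro i j
    refine (haa i j L c').trans ?_
    have h5 := mul_le_mul_of_nonneg_left h3 (Nat.cast_nonneg (α := ℤ) (a i j))
    push_cast at h5 ⊢
    have h6 : (a i j : ℤ) * ((Fintype.card (crs P) : ℤ) * (C * χ)) =
      (a i j : ℤ) * ((Fintype.card (crs P) : ℤ) * C) * χ := by ring
    rw [h6] at h5
    exact add_le_add h5 le_rfl
  have h4 : ∀ i, hgt k (f i / f i1) ≤
      (∑ j ∈ Finset.range (D i + 1), a i j * (Fintype.card (crs P) * C) : ℕ) * χ +
        (∑ j ∈ Finset.range (D i + 1), a' i j : ℕ) * r := by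
    intro i
    refine (hgt_root (k := k) (fun j => MvPolynomial.aeval c' (g i j)) (hrel i).1 _
      (hrel i).2).trans ?_
    rw [add_comm, ← Finset.sum_range_succ (fun j => hgt k (MvPolynomial.aeval c' (g i j)))]
    refine (Finset.sum_le_sum fun j _ => h2 i j).trans (le_of_eq ?_)
    rw [Finset.sum_add_distrib, ← Finset.sum_mul, ← Finset.sum_mul]
    push_cast
    rfl
  refine (pht_le (k := k) f hf1).trans ((Finset.sum_le_sum fun j _ => h4 j).trans (le_of_eq ?_))
  rw [Finset.sum_add_distrib, ← Finset.sum_mul, ← Finset.sum_mul]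
  push_cast
  rfl

/-- **Vojta's inequality** for varieties over function fields which carry a map with many
preperiodic points, and for their generically finite covers. -/
theorem vojta (hcvh : S_cvh) (hgt : S_gt) (d : ℕ) (hd : 2 ≤ d) : ∃ B : ℕ, ∀ (k F K : Type)
    [Field k] [IsAlgClosed k] [CharZero k] [Field F] [Algebra k F] [IsFF k F] [Field K]
    [Algebra F K] (p q : K[X]), ManyPrep F d B p q →
    ∀ (K' : Type) [Field K'] [Algebra F K'] [Algebra K K'] [IsScalarTower F K K']
      [Algebra.IsAlgebraic K K'],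
    (∀ w : ℕ, 1 ≤ w → Algebra.trdeg F K' = w → GeneralType F K' w) ∧
    ∀ (M : ℕ) (y : Fin (M + 1) → K'), y ≠ 0 → coords F y = ⊤ →
    ∃ G : MvPolynomial (Fin (M + 1)) F, IsForm G ∧ val y G ≠ 0 ∧ ∃ A A' : ℕ,
      ∀ (L : Type) [Field L] [Algebra k L] [Algebra F L] [IsScalarTower k F L] [IsFF k L]
        (f : Fin (M + 1) → L), OnVar F y f → val f G ≠ 0 →
        pht k f ≤ A * max (canDeg k L) 0 + A' * Module.finrank F L := by
  obtain ⟨B1, hB1⟩ := voj_stab hcvh d hd
  obtain ⟨B2, hB2⟩ := hgt d hd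
  refine ⟨max (max B1 B2) (3 * d + 7), fun k F K _ _ _ _ _ _ _ _ p q h K' _ _ _ _ _ => ?_⟩
  have hF : CharZero F := charZero_of_injective_algebraMap (algebraMap k F).injective
  obtain ⟨p', q', P', hp', hq', hpq', hst, hc, halg⟩ := exists_stab hd (le_max_right _ _) h
  have hc1 : B1 ≤ (im (algebraMap K K') P').card := by
    rw [card_im]
    exact (le_max_left _ _).trans ((le_max_left _ _).trans hc)
  have hc2 : B2 ≤ (im (algebraMap K K') P').card := by
    rw [card_im]
    exact (le_max_right _ _).trans ((le_max_left _ _).trans hc)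
  have h1 : (p'.map (algebraMap K K')).natDegree ≤ d := by rw [natDegree_map]; exact hp'
  have h2 : (q'.map (algebraMap K K')).natDegree = d := by rw [natDegree_map]; exact hq'
  have h3 : IsCoprime (p'.map (algebraMap K K')) (q'.map (algebraMap K K')) :=
    hpq'.map (mapRingHom (algebraMap K K'))
  exact ⟨fun w hw htr => hB2 F K' w hw htr _ _ h1 h2 h3 _ (stab_im _ hst) hc2 (alg_im halg),
    fun M y hy hgen => hB1 k F K' _ _ h1 h2 h3 _ (stab_im _ hst) hc1 (alg_im halg) M y hy hgen⟩

end Pool.Agent.U723.GT
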