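import Pool.Agent.U723.GT.Voj
import Pool.Agent.U723.GT.ExFld
import Pool.Agent.Q41.GT.All
import Pool.Agent.Q41.GT.Ah

/-!
# Vojta's inequality, final form
-/

set_option autoImplicit false

namespace Pool.Agent.U723.GT

open Finset Polynomial FF
open Pool.Agent.W602.GT (coords val IsForm GeneralType)
open Pool.Agent.Y216 (OnVar)
open Pool.Agent.W603.LV (hgt canDeg)
open Pool.Agent.W603.PV (pht)
open Pool.Agent.Q41.GT
open Pool.Agent.Q103.EC (ManyPrep)

theorem vojta_all (d : ℕ) (hd : 2 ≤ d) : ∃ B : ℕ, ∀ (k F K : Type)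
    [Field k] [IsAlgClosed k] [CharZero k] [Field F] [Algebra k F] [IsFF k F] [Field K]
    [Algebra F K] (p q : K[X]), ManyPrep F d B p q →
    ∀ (K' : Type) [Field K'] [Algebra F K'] [Algebra K K'] [IsScalarTower F K K']
      [Algebra.IsAlgebraic K K'],
    (∀ w : ℕ, 1 ≤ w → Algebra.trdeg F K' = w → GeneralType F K' w) ∧
    ∀ (M : ℕ) (y : Fin (M + 1) → K'), y ≠ 0 → coords F y = ⊤ →
    ∃ G : MvPolynomial (Fin (M + 1)) F, IsForm G ∧ val y G ≠ 0 ∧ ∃ A A' : ℕ,
      ∀ (L : Type) [Field L] [Algebra k L] [Algebra F L] [IsScalarTower k F L] [IsFF k L]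
        (f : Fin (M + 1) → L), OnVar F y f → val f G ≠ 0 →
        pht k f ≤ A * max (canDeg k L) 0 + A' * Module.finrank F L :=
  vojta c_cvh a_gt d hd

end Pool.Agent.U723.GT
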